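import Pool.Agent.H217_D3.Colour

/-!
# Cubes in locally defined subsets of finite abelian groups
-/

set_option autoImplicit false

namespace Pool.Agent.H217_KR

open Finset Pool.Agent.H217_D3

/-- `C` is a union of cosets of a subgroup of index at most `K` -/
def Coarse {W : Type} [AddCommGroup W] (K : ℕ) (C : Set W) : Prop :=
  ∃ H : AddSubgroup W, H.index ≤ K ∧ ∀ y z : W, y - z ∈ H → (y ∈ C ↔ z ∈ C)

/-- an intersection of any number of coarse sets and of `q` unions of coarse sets -/
def Local {W : Type} [AddCommGroup W] (K q : ℕ) (T : Set W) : Prop :=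
  ∃ (𝒞 : Set (Set W)) (𝒟 : Fin q → Set (Set W)), (∀ C ∈ 𝒞, Coarse K C) ∧
    (∀ j, ∀ C ∈ 𝒟 j, Coarse K C) ∧ T = {y | (∀ C ∈ 𝒞, y ∈ C) ∧ ∀ j, ∃ C ∈ 𝒟 j, y ∈ C}

theorem Local.tame {W : Type} [AddCommGroup W] {K q : ℕ} {T : Set W} (h : Local K q T) :
    Tame K q T := by
  obtain ⟨𝒞, 𝒟, hC, hD, rfl⟩ := h
  refine ⟨{A | ∃ C ∈ 𝒞, ∃ (H : AddSubgroup W) (y : W), H.index ≤ K ∧
      (∀ y z : W, y - z ∈ H → (y ∈ C ↔ z ∈ C)) ∧ y ∉ C ∧ A = {x | x - y ∈ H}},
    fun j => {A | ∃ C ∈ 𝒟 j, ∃ (H : AddSubgroup W) (y : W), H.index ≤ K ∧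
      (∀ y z : W, y - z ∈ H → (y ∈ C ↔ z ∈ C)) ∧ y ∈ C ∧ A = {x | x - y ∈ H}}, ?_, ?_, ?_⟩
  · rintro A ⟨C, _, H, y, hH, _, _, rfl⟩
    exact Or.inr ⟨H, y, hH, rfl⟩
  · rintro j A ⟨C, _, H, y, hH, _, _, rfl⟩
    exact Or.inr ⟨H, y, hH, rfl⟩
  · ext x
    constructor
    · rintro ⟨h1, h2⟩
      refine ⟨?_, fun j => ?_⟩
      · rintro A ⟨C, hC', H, y, hH, hu, hy, rfl⟩ hx
        exact hy ((hu x y hx).1 (h1 C hC'))
      · obtain ⟨C, hC', hx⟩ := h2 j
        obtain ⟨H, hH, hu⟩ := hD j C hC'
        exact ⟨_, ⟨C, hC', H, x, hH, hu, hx, rfl⟩, by simp⟩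
    · rintro ⟨h1, h2⟩
      refine ⟨fun C hC' => ?_, fun j => ?_⟩
      · by_contra hx
        obtain ⟨H, hH, hu⟩ := hC C hC'
        exact h1 _ ⟨C, hC', H, x, hH, hu, hx, rfl⟩ (by simp)
      · obtain ⟨_, ⟨C, hC', H, y, hH, hu, hy, rfl⟩, hx⟩ := h2 j
        exact ⟨C, hC', (hu x y hx).2 hy⟩

/-- the points of a cube -/
def pt {W : Type} [AddCommGroup W] {d : ℕ} (b : W) (h : Fin d → W) (e : Fin d → Bool) : W :=
  b + ∑ i, if e i then h i else 0

theorem bad_le {U : Type} [AddCommGroup U] [Fintype U] [DecidableEq U] {d : ℕ}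
    (e e' : Fin d → Bool) (hne : e ≠ e') :
    (univ.filter fun h : Fin d → U => pt 0 h e = pt 0 h e').card * Fintype.card U ≤
      Fintype.card U ^ d := by
  obtain ⟨i, hi⟩ := Function.ne_iff.1 hne
  have h1 : ((univ.filter fun h : Fin d → U => pt 0 h e = pt 0 h e') ×ˢ (univ : Finset U)).card ≤
      (univ : Finset (Fin d → U)).card := by
    refine Finset.card_le_card_of_injOn (fun p => Function.update p.1 i p.2)
      (fun p _ => mem_coe.2 (mem_univ _)) ?_
    rintro ⟨h, u⟩ hp ⟨h', u'⟩ hp' heq
    simp only [coe_product, coe_filter, mem_univ, true_and, coe_univ, Set.mem_prod,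
      Set.mem_ofPred_eq, Set.mem_univ, and_true] at hp hp'
    have hu : u = u' := by
      have := congrFun heq i
      simpa using this
    have hj : ∀ j, j ≠ i → h j = h' j := by
      intro j hj
      have := congrFun heq j
      simpa [Function.update_of_ne hj] using this
    have hsplit : ∀ (g : Fin d → U) (a : Fin d → Bool), pt 0 g a =
        (if a i then g i else 0) + ∑ j ∈ univ.erase i, if a j then g j else 0 := by
      intro g a
      unfold pt
      rw [zero_add, ← Finset.add_sum_erase univ _ (mem_univ i)]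
    have hsame : ∀ a : Fin d → Bool, (∑ j ∈ univ.erase i, if a j then h j else 0) =
        ∑ j ∈ univ.erase i, if a j then h' j else 0 := by
      intro a
      refine Finset.sum_congr rfl fun j hj' => ?_
      rw [hj j (Finset.ne_of_mem_erase hj')]
    have hii : h i = h' i := by
      rw [hsplit, hsplit] at hp hp'
      rw [hsame e, hsame e'] at hp
      cases hei : e i <;> cases hei' : e' i
      · exact absurd (hei.trans hei'.symm) hi
      · simp only [hei, hei', if_true, Bool.false_eq_true, if_false, zero_add] at hp hp'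
        rw [hp] at hp'
        exact add_right_cancel hp'
      · simp only [hei, hei', if_true, Bool.false_eq_true, if_false, zero_add] at hp hp'
        rw [← hp] at hp'
        exact (add_right_cancel hp').symm
      · exact absurd (hei.trans hei'.symm) hi
    refine Prod.ext ?_ hu
    funext j
    by_cases hji : j = i
    · subst hji; exact hii
    · exact hj j hji
  rw [Finset.card_product, Finset.card_univ, Finset.card_univ] at h1
  simpa using h1

theorem good_ge {U : Type} [AddCommGroup U] [Fintype U] [DecidableEq U] {d : ℕ}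
    (hU : 2 * 4 ^ d ≤ Fintype.card U) :
    Fintype.card U ^ d ≤
      2 * (univ.filter fun h : Fin d → U => Function.Injective (pt 0 h)).card := by
  classical
  have hpos : 0 < Fintype.card U := lt_of_lt_of_le (by positivity) hU
  set B := univ.filter fun h : Fin d → U => ¬ Function.Injective (pt 0 h) with hB
  have h1 : B ⊆ (univ : Finset ((Fin d → Bool) × (Fin d → Bool))).biUnion
      fun p => if p.1 ≠ p.2 then univ.filter fun h : Fin d → U => pt 0 h p.1 = pt 0 h p.2 else ∅ := by
    intro h hh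
    rw [hB, mem_filter] at hh
    have h2 := hh.2
    unfold Function.Injective at h2
    push Not at h2
    obtain ⟨e, e', h3, h4⟩ := h2
    refine mem_biUnion.2 ⟨(e, e'), mem_univ _, ?_⟩
    rw [if_pos h4]
    exact mem_filter.2 ⟨mem_univ _, h3⟩
  have h2 : B.card * Fintype.card U ≤ 4 ^ d * Fintype.card U ^ d := by
    refine (Nat.mul_le_mul_right _ ((card_le_card h1).trans card_biUnion_le)).trans ?_
    rw [Finset.sum_mul]
    refine (Finset.sum_le_card_nsmul _ _ (Fintype.card U ^ d) ?_).trans ?_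
    · rintro ⟨e, e'⟩ _
      by_cases hne : e ≠ e'
      · simp only [if_pos hne]
        exact bad_le e e' hne
      · simp only [if_neg hne]
        simp
    · rw [smul_eq_mul, card_univ, Fintype.card_prod]
      refine Nat.mul_le_mul_right _ (le_of_eq ?_)
      simp only [Fintype.card_pi, Fintype.card_bool, prod_const, card_univ, Fintype.card_fin]
      rw [← mul_pow]
      norm_num
  have h3 : 2 * B.card ≤ Fintype.card U ^ d := by
    by_contra hcon
    push Not at hcon
    have h4 : Fintype.card U ^ d * Fintype.card U < 2 * B.card * Fintype.card U :=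
      Nat.mul_lt_mul_of_pos_right hcon hpos
    have h5 : 2 * B.card * Fintype.card U ≤ 2 * (4 ^ d * Fintype.card U ^ d) := by
      rw [mul_assoc]; exact Nat.mul_le_mul_left _ h2
    have h6 : 2 * (4 ^ d * Fintype.card U ^ d) ≤ Fintype.card U ^ d * Fintype.card U := by
      rw [← mul_assoc, mul_comm]
      exact Nat.mul_le_mul_left _ hU
    omega
  have h4 : B.card + (univ.filter fun h : Fin d → U => Function.Injective (pt 0 h)).card =
      Fintype.card U ^ d := by
    have := Finset.card_filter_add_card_filter_not (s := (univ : Finset (Fin d → U)))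
      (fun h => Function.Injective (pt 0 h))
    rw [card_univ] at this
    simp only [Fintype.card_pi, prod_const, card_univ, Fintype.card_fin] at this
    rw [hB]
    omega
  omega

/-- the cubes with distinct points in a set -/
noncomputable def cubes {W : Type} [AddCommGroup W] [Fintype W] (d : ℕ) (R : Set W) :
    Finset (W × (Fin d → W)) := by
  classical
  exact univ.filter fun p => Function.Injective (pt p.1 p.2) ∧ ∀ e, pt p.1 p.2 e ∈ R

theorem mem_cubes {W : Type} [AddCommGroup W] [Fintype W] {d : ℕ} {R : Set W}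
    {p : W × (Fin d → W)} :
    p ∈ cubes d R ↔ Function.Injective (pt p.1 p.2) ∧ ∀ e, pt p.1 p.2 e ∈ R := by
  classical
  unfold cubes
  simp

theorem pt_add {W : Type} [AddCommGroup W] {d : ℕ} (b : W) (h : Fin d → W) (e : Fin d → Bool) :
    pt b h e = b + pt 0 h e := by
  unfold pt; rw [zero_add]

theorem pt_coe {W : Type} [AddCommGroup W] {d : ℕ} (U : AddSubgroup W) (h : Fin d → U)
    (e : Fin d → Bool) : pt 0 (fun i => (h i : W)) e = ((pt 0 h e : U) : W) := by
  unfold pt
  rw [zero_add, zero_add]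
  push_cast
  refine Finset.sum_congr rfl fun i _ => ?_
  split_ifs <;> simp

theorem cubes_ge {W : Type} [AddCommGroup W] [Fintype W] {d : ℕ} {R : Set W}
    (U : AddSubgroup W) (a : W) (hU : 2 * 4 ^ d ≤ Nat.card U) (ha : ∀ w ∈ U, a + w ∈ R) :
    Nat.card U ^ (d + 1) ≤ 2 * (cubes d R).card := by
  classical
  have := Fintype.ofFinite U
  rw [Nat.card_eq_fintype_card] at hU ⊢
  have h1 := good_ge (U := U) hU
  have h2 : ((univ : Finset U) ×ˢ (univ.filter fun h : Fin d → U => Function.Injective (pt 0 h))).card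
      ≤ (cubes d R).card := by
    refine Finset.card_le_card_of_injOn (fun p => (a + (p.1 : W), fun i => ((p.2 i : U) : W))) ?_ ?_
    · rintro ⟨u, h⟩ hp
      simp only [coe_product, coe_filter, mem_univ, true_and, coe_univ, Set.mem_prod,
        Set.mem_ofPred_eq, Set.mem_univ] at hp
      refine mem_coe.2 (mem_cubes.2 ⟨?_, fun e => ?_⟩)
      · intro e e' he
        dsimp only at he
        rw [pt_add, pt_add (a + (u : W)) _ e', pt_coe, pt_coe] at he
        exact hp (Subtype.ext (add_left_cancel he))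
      · dsimp only
        rw [pt_add, pt_coe, add_assoc]
        exact ha _ (U.add_mem u.2 (pt 0 h e : U).2)
    · rintro ⟨u, h⟩ _ ⟨u', h'⟩ _ heq
      rw [Prod.mk.injEq] at heq
      refine Prod.ext (Subtype.ext (add_left_cancel heq.1)) ?_
      funext i
      exact Subtype.ext (congrFun heq.2 i)
  rw [Finset.card_product, Finset.card_univ] at h2
  calc Fintype.card U ^ (d + 1) = Fintype.card U * Fintype.card U ^ d := by ring
    _ ≤ Fintype.card U *
        (2 * (univ.filter fun h : Fin d → U => Function.Injective (pt 0 h)).card) :=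
        Nat.mul_le_mul_left _ h1
    _ = 2 * (Fintype.card U *
        (univ.filter fun h : Fin d → U => Function.Injective (pt 0 h)).card) := by ring
    _ ≤ _ := Nat.mul_le_mul_left _ h2

/-- few sets contain large cosets if no `r` points belong to `u` of the sets -/
theorem few {X W : Type} [AddCommGroup W] [Fintype W] {d M r u : ℕ} (R : X → Set W)
    (hr : r ≤ 2 ^ d) (hfree : ∀ (S : Finset X) (Y : Finset W), S.card = u → Y.card = r →
      (∀ x ∈ S, ∀ y ∈ Y, y ∈ R x) → False) (X' : Finset X)
    (hX : ∀ x ∈ X', ∃ (U : AddSubgroup W) (a : W), Nat.card W ≤ M * Nat.card U ∧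
      2 * 4 ^ d ≤ Nat.card U ∧ ∀ w ∈ U, a + w ∈ R x) :
    X'.card ≤ 2 * u * M ^ (d + 1) := by
  classical
  set n := Nat.card W with hn
  have hn0 : 0 < n := Nat.card_pos
  have h1 : ∀ x ∈ X', n ^ (d + 1) ≤ 2 * M ^ (d + 1) * (cubes d (R x)).card := by
    intro x hx
    obtain ⟨U, a, h2, h3, h4⟩ := hX x hx
    calc n ^ (d + 1) ≤ (M * Nat.card U) ^ (d + 1) := Nat.pow_le_pow_left h2 _
      _ = M ^ (d + 1) * Nat.card U ^ (d + 1) := mul_pow _ _ _
      _ ≤ M ^ (d + 1) * (2 * (cubes d (R x)).card) :=
          Nat.mul_le_mul_left _ (cubes_ge U a h3 h4)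
      _ = _ := by ring
  have h2 : ∑ x ∈ X', (cubes d (R x)).card ≤ u * n ^ (d + 1) := by
    have h3 : ∑ x ∈ X', (cubes d (R x)).card =
        ∑ p : W × (Fin d → W), (X'.filter fun x => p ∈ cubes d (R x)).card := by
      simp only [Finset.card_filter]
      rw [Finset.sum_comm]
      refine Finset.sum_congr rfl fun x _ => ?_
      rw [← Finset.card_filter]
      congr 1
      ext p; simp
    rw [h3]
    have h4 : ∀ p : W × (Fin d → W), (X'.filter fun x => p ∈ cubes d (R x)).card ≤ u := by
      intro p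
      by_contra hcon
      push Not at hcon
      obtain ⟨S, hS, hSc⟩ := Finset.exists_subset_card_eq hcon.le
      have hne : (X'.filter fun x => p ∈ cubes d (R x)).Nonempty := card_pos.1 (by omega)
      obtain ⟨x0, hx0⟩ := hne
      have hinj := (mem_cubes.1 (mem_filter.1 hx0).2).1
      have hc : (univ.image (pt p.1 p.2)).card = 2 ^ d := by
        rw [Finset.card_image_of_injective _ hinj]
        simp
      obtain ⟨Y, hY, hYc⟩ := Finset.exists_subset_card_eq (hr.trans hc.symm.le)
      refine hfree S Y hSc hYc fun x hx y hy => ?_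
      obtain ⟨e, _, rfl⟩ := mem_image.1 (hY hy)
      exact (mem_cubes.1 (mem_filter.1 (hS hx)).2).2 e
    refine (Finset.sum_le_sum fun p _ => h4 p).trans ?_
    rw [Finset.sum_const, card_univ, smul_eq_mul, Fintype.card_prod, Fintype.card_pi, prod_const,
      card_univ, Fintype.card_fin, hn, Nat.card_eq_fintype_card]
    refine le_of_eq ?_
    ring
  have h3 : X'.card * n ^ (d + 1) ≤ (2 * u * M ^ (d + 1)) * n ^ (d + 1) := by
    calc X'.card * n ^ (d + 1) ≤ ∑ x ∈ X', 2 * M ^ (d + 1) * (cubes d (R x)).card := by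
          rw [← smul_eq_mul]
          exact Finset.card_nsmul_le_sum _ _ _ h1
      _ = 2 * M ^ (d + 1) * ∑ x ∈ X', (cubes d (R x)).card := by rw [Finset.mul_sum]
      _ ≤ 2 * M ^ (d + 1) * (u * n ^ (d + 1)) := Nat.mul_le_mul_left _ h2
      _ = _ := by ring
  exact Nat.le_of_mul_le_mul_right h3 (by positivity)

end Pool.Agent.H217_KR
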