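import Pool.Agent.H217_KR.Graph

/-!
# `K_{r,u}`-free graphs labelled by a finite abelian group
-/

set_option autoImplicit false

namespace Pool.Agent.H217_KR

open Finset Pool.Agent.H217_D3

theorem not_free {V : Type*} (G : SimpleGraph V) {r u : ℕ} (X Y : Finset V) (hX : X.card = u)
    (hY : Y.card = r) (h : ∀ x ∈ X, ∀ y ∈ Y, G.Adj x y) :
    ¬ (completeBipartiteGraph (Fin r) (Fin u)).Free G := by
  rw [SimpleGraph.Free, not_not]
  let eX : Fin u ≃ X := (Fintype.equivFinOfCardEq (by simpa using hX)).symm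
  let eY : Fin r ≃ Y := (Fintype.equivFinOfCardEq (by simpa using hY)).symm
  let f : Fin r ⊕ Fin u → V := Sum.elim (fun i => (eY i : V)) (fun j => (eX j : V))
  refine ⟨⟨⟨f, ?_⟩, ?_⟩⟩
  · intro a b hab
    rcases a with i | i <;> rcases b with j | j
    · simp at hab
    · exact (h _ (eX j).2 _ (eY i).2).symm
    · exact h _ (eX i).2 _ (eY j).2
    · simp at hab
  · intro a b hab
    rcases a with i | i <;> rcases b with j | j
    · have : (eY i : V) = eY j := hab
      rw [eY.injective (Subtype.ext this)]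
    · exact absurd (show (eX j : V) = eY i from hab.symm) (G.ne_of_adj (h _ (eX j).2 _ (eY i).2))
    · exact absurd (show (eX i : V) = eY j from hab) (G.ne_of_adj (h _ (eX i).2 _ (eY j).2))
    · have : (eX i : V) = eX j := hab
      rw [eX.injective (Subtype.ext this)]

theorem graph_bound {V W : Type} [Fintype V] [AddCommGroup W] [Finite W] {K q L d r u : ℕ}
    (hK : 2 ≤ K) (hu : 1 ≤ u) (hr : r ≤ 2 ^ d) (lab : V → W) (G : SimpleGraph V)
    (hlab : Function.Injective lab) (hN : ∀ x, LocalUnion K q L (lab '' G.neighborSet x))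
    (hfree : (completeBipartiteGraph (Fin r) (Fin u)).Free G) :
    2 * (Nat.card G.edgeSet : ℝ) ≤ (L * 2 ^ ((q : ℝ) / K) + 2 * 4 ^ d + 2 * u) *
      Fintype.card V * (Nat.card W : ℝ) ^ (1 - ex K d) := by
  classical
  have := Fintype.ofFinite W
  have hdeg : ∀ x, Nat.card (lab '' G.neighborSet x) = G.degree x := by
    intro x
    rw [Nat.card_image_of_injective hlab, Nat.card_eq_fintype_card, G.card_neighborSet_eq_degree]
  have h1 := real_bound (u := u) (r := r) (Fintype.card V) hK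
    (fun x => lab '' G.neighborSet x) (fun x => (hN x).deep) hr ?_ ?_ le_rfl
  · have h2 := G.sum_degrees_eq_twice_card_edges
    have h3 : (Nat.card G.edgeSet) = #G.edgeFinset := by
      rw [Nat.card_eq_fintype_card, SimpleGraph.edgeFinset_card]
    simp only [hdeg] at h1
    rw [h2] at h1
    rw [h3]
    push_cast at h1
    exact h1
  · intro X Y hX hY hXY
    obtain ⟨x₀, hx₀⟩ : X.Nonempty := Finset.card_pos.1 (by omega)
    have himg : (univ.filter (fun v => lab v ∈ Y)).image lab = Y := by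
      ext y
      simp only [Finset.mem_image, Finset.mem_filter, Finset.mem_univ, true_and]
      constructor
      · rintro ⟨v, hv, rfl⟩; exact hv
      · intro hy
        obtain ⟨v, _, hv⟩ := hXY x₀ hx₀ y hy
        exact ⟨v, by rw [hv]; exact hy, hv⟩
    have hc : (univ.filter (fun v => lab v ∈ Y)).card = r := by
      rw [← hY, ← himg, Finset.card_image_of_injective _ hlab, himg]
    refine not_free G X (univ.filter (fun v => lab v ∈ Y)) hX hc ?_ hfree
    intro x hx v hv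
    obtain ⟨w, hw, hwv⟩ := hXY x hx _ (Finset.mem_filter.1 hv).2
    rw [← hlab hwv]
    exact hw
  · intro x
    rw [hdeg]
    exact (G.degree_lt_card_verts x).le

theorem graph_large (K q r D : ℕ) (c δ : ℝ) (hK : 2 ≤ K) (hr : 1 ≤ r) (hc : 0 < c) (hδ : 0 ≤ δ)
    (hδ' : δ < ex K (Nat.clog 2 r) - 1 / r) :
    ∃ n₀ : ℕ, ∀ (n L : ℕ) (W : Type) [AddCommGroup W] [Finite W] (lab : Fin n → W)
      (G : SimpleGraph (Fin n)), n₀ ≤ n → Function.Injective lab → Nat.card W ≤ D * n →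
      (∀ x, LocalUnion K q L (lab '' G.neighborSet x)) →
      (completeBipartiteGraph (Fin r) (Fin r)).Free G →
      c * (n : ℝ) ^ (2 - 1 / (r : ℝ)) ≤ Nat.card G.edgeSet → (n : ℝ) ^ δ < L := by
  set d := Nat.clog 2 r with hd
  set ε := ex K d with hε
  have he1 := ex_lt_one (d := d) hK
  rw [← hε] at he1
  set A : ℝ := 2 ^ ((q : ℝ) / K) with hA
  set B : ℝ := 2 * 4 ^ d + 2 * r with hB
  have hApos : 0 < A := by positivity
  have hBpos : 0 ≤ B := by positivity
  set D' : ℝ := (D : ℝ) ^ (1 - ε) with hD'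
  have hD'0 : 0 ≤ D' := by positivity
  have hgap : 0 < ε - 1 / r - δ := by linarith
  have htend : Filter.Tendsto (fun n : ℕ => (n : ℝ) ^ (ε - 1 / r - δ)) Filter.atTop
      Filter.atTop := (tendsto_rpow_atTop hgap).comp tendsto_natCast_atTop_atTop
  obtain ⟨n₁, hn₁⟩ := Filter.eventually_atTop.1
    (htend.eventually (Filter.eventually_gt_atTop ((A + B) * D' / (2 * c))))
  refine ⟨max n₁ 1, fun n L W _ _ lab G hn hlab hW hN hfree hG => ?_⟩
  have hn1 : 1 ≤ n := le_trans (le_max_right _ _) hn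
  have hnr : (1 : ℝ) ≤ n := by exact_mod_cast hn1
  have hnpos : (0 : ℝ) < n := by linarith
  by_contra hcon
  push Not at hcon
  have h1 := graph_bound (d := d) hK hr (Nat.le_pow_clog (by norm_num) r) lab G hlab hN hfree
  rw [Fintype.card_fin, ← hε] at h1
  have hWr : (Nat.card W : ℝ) ≤ D * n := by exact_mod_cast hW
  have h2 : (Nat.card W : ℝ) ^ (1 - ε) ≤ D' * (n : ℝ) ^ (1 - ε) := by
    rw [hD', ← Real.mul_rpow (by positivity) (by positivity)]
    exact Real.rpow_le_rpow (by positivity) hWr (by linarith)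
  have h3 : (L * A + 2 * 4 ^ d + 2 * r : ℝ) ≤ (A + B) * (n : ℝ) ^ δ := by
    have h4 : (1 : ℝ) ≤ (n : ℝ) ^ δ := Real.one_le_rpow hnr hδ
    have h5 : (L : ℝ) * A ≤ (n : ℝ) ^ δ * A := by gcongr
    have h6 : B * 1 ≤ B * (n : ℝ) ^ δ := by gcongr
    rw [hB] at h6 ⊢
    nlinarith
  have h4 : 2 * (c * (n : ℝ) ^ (2 - 1 / (r : ℝ))) ≤
      ((A + B) * (n : ℝ) ^ δ) * n * (D' * (n : ℝ) ^ (1 - ε)) := by
    refine (mul_le_mul_of_nonneg_left hG (by norm_num)).trans (h1.trans ?_)
    gcongr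
  have h5 : (n : ℝ) ^ (2 - 1 / (r : ℝ)) =
      (n : ℝ) ^ (ε - 1 / r - δ) * ((n : ℝ) ^ δ * n * (n : ℝ) ^ (1 - ε)) := by
    have e1 : (n : ℝ) ^ δ * n * (n : ℝ) ^ (1 - ε) = (n : ℝ) ^ (δ + 1 + (1 - ε)) := by
      rw [Real.rpow_add hnpos, Real.rpow_add hnpos, Real.rpow_one]
    rw [e1, ← Real.rpow_add hnpos]
    congr 1
    ring
  rw [h5] at h4
  have h6 : 0 < (n : ℝ) ^ δ * n * (n : ℝ) ^ (1 - ε) := by positivity
  have h7 : (n : ℝ) ^ (ε - 1 / r - δ) * (2 * c) ≤ (A + B) * D' := by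
    rw [← mul_le_mul_iff_left₀ h6]
    calc (n : ℝ) ^ (ε - 1 / r - δ) * (2 * c) * ((n : ℝ) ^ δ * n * (n : ℝ) ^ (1 - ε))
        = 2 * (c * ((n : ℝ) ^ (ε - 1 / r - δ) * ((n : ℝ) ^ δ * n * (n : ℝ) ^ (1 - ε)))) := by ring
      _ ≤ _ := h4
      _ = _ := by ring
  have h8 := hn₁ n (le_trans (le_max_left _ _) hn)
  rw [div_lt_iff₀ (by positivity)] at h8
  linarith

end Pool.Agent.H217_KR
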