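import Pool.Agent.H217_KR.Cubes

/-!
# Graphs without `K_{r,u}` whose neighbourhoods are locally defined
-/

set_option autoImplicit false

namespace Pool.Agent.H217_KR

open Finset Pool.Agent.H217_D3

/-- a union of `L` locally defined sets -/
def LocalUnion {W : Type} [AddCommGroup W] (K q L : ℕ) (S : Set W) : Prop :=
  ∃ T : Fin L → Set W, (∀ j, Local K q (T j)) ∧ S = ⋃ j, T j

theorem LocalUnion.deep {W : Type} [AddCommGroup W] {K q L : ℕ} {S : Set W}
    (h : LocalUnion K q L S) : Deep K q L S := by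
  obtain ⟨T, hT, rfl⟩ := h
  exact ⟨T, fun i => (hT i).tame, by ext x; simp⟩

theorem sum_bound {X W : Type} [Fintype X] [AddCommGroup W] [Fintype W] {K q L d r u : ℕ}
    (N D : ℕ) (R : X → Set W) (hR : ∀ x, Deep K q L (R x)) (hr : r ≤ 2 ^ d)
    (hfree : ∀ (S : Finset X) (Y : Finset W), S.card = u → Y.card = r →
      (∀ x ∈ S, ∀ y ∈ Y, y ∈ R x) → False)
    (hD : ∀ x, Nat.card (R x) ≤ D) :
    (∑ x, Nat.card (R x)) * K ^ (N + 1) ≤
      Fintype.card X * (Nat.card W * L * (K - 1) ^ (N + 1)) +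
      K ^ (N + 1) * (Fintype.card X * (2 * 4 ^ d * K ^ (N + q)) +
        2 * u * (K ^ (N + q)) ^ (d + 1) * D) := by
  classical
  set n := Nat.card W with hn
  have hcard : ∀ x, Nat.card (R x) ≤ n := fun x =>
    Nat.card_le_card_of_injective _ Subtype.val_injective
  by_cases hsmall : n ≤ 2 * 4 ^ d * K ^ (N + q)
  · have h1 : ∑ x, Nat.card (R x) ≤ Fintype.card X * (2 * 4 ^ d * K ^ (N + q)) := by
      refine (Finset.sum_le_card_nsmul _ _ _ fun x _ => (hcard x).trans hsmall).trans ?_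
      rw [card_univ, smul_eq_mul]
    calc (∑ x, Nat.card (R x)) * K ^ (N + 1)
        ≤ Fintype.card X * (2 * 4 ^ d * K ^ (N + q)) * K ^ (N + 1) := Nat.mul_le_mul_right _ h1
      _ = K ^ (N + 1) * (Fintype.card X * (2 * 4 ^ d * K ^ (N + q))) := by ring
      _ ≤ _ := by
        refine le_trans ?_ (Nat.le_add_left _ _)
        exact Nat.mul_le_mul_left _ (Nat.le_add_right _ _)
  · push Not at hsmall
    set X' := univ.filter fun x => n * L * (K - 1) ^ (N + 1) < Nat.card (R x) * K ^ (N + 1)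
      with hX'
    have hfew : X'.card ≤ 2 * u * (K ^ (N + q)) ^ (d + 1) := by
      refine few R hr hfree X' fun x hx => ?_
      have h1 := (mem_filter.1 hx).2
      obtain ⟨T, hT, hS⟩ := hR x
      have hne : (R x).Nonempty := by
        by_contra hc
        rw [Set.not_nonempty_iff_eq_empty] at hc
        rw [hc] at h1
        simp at h1
      obtain ⟨i, _, h2⟩ := exists_dense T (R x) hS hne
      have h3 : Nat.card W * (K - 1) ^ (N + 1) < Nat.card (T i) * K ^ (N + 1) := by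
        by_contra hcon
        push Not at hcon
        have h4 : Nat.card (R x) * K ^ (N + 1) ≤ n * L * (K - 1) ^ (N + 1) := by
          calc Nat.card (R x) * K ^ (N + 1) ≤ L * Nat.card (T i) * K ^ (N + 1) :=
                Nat.mul_le_mul_right _ h2
            _ = L * (Nat.card (T i) * K ^ (N + 1)) := by ring
            _ ≤ L * (Nat.card W * (K - 1) ^ (N + 1)) := Nat.mul_le_mul_left _ hcon
            _ = _ := by rw [hn]; ring
        omega
      obtain ⟨U, a, h5, h6⟩ := greedy K q N W (T i) (hT i) h3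
      refine ⟨U, a, h5, ?_, fun w hw => ?_⟩
      · by_contra hcon
        push Not at hcon
        have h7 : K ^ (N + q) * Nat.card U ≤ K ^ (N + q) * (2 * 4 ^ d) :=
          Nat.mul_le_mul_left _ hcon.le
        have h8 : K ^ (N + q) * (2 * 4 ^ d) = 2 * 4 ^ d * K ^ (N + q) := mul_comm _ _
        omega
      · rw [hS]; exact ⟨i, h6 w hw⟩
    have h1 : ∑ x ∈ X', Nat.card (R x) ≤ 2 * u * (K ^ (N + q)) ^ (d + 1) * D := by
      refine (Finset.sum_le_card_nsmul _ _ _ fun x _ => hD x).trans ?_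
      rw [smul_eq_mul]
      exact Nat.mul_le_mul_right _ hfew
    have h2 : (∑ x ∈ univ.filter (fun x => ¬ n * L * (K - 1) ^ (N + 1) <
        Nat.card (R x) * K ^ (N + 1)), Nat.card (R x)) * K ^ (N + 1) ≤
        Fintype.card X * (n * L * (K - 1) ^ (N + 1)) := by
      rw [Finset.sum_mul]
      refine (Finset.sum_le_card_nsmul _ _ (n * L * (K - 1) ^ (N + 1)) ?_).trans ?_
      · intro x hx
        have := (mem_filter.1 hx).2
        omega
      · rw [smul_eq_mul]
        exact Nat.mul_le_mul_right _ (card_le_univ _)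
    rw [← Finset.sum_filter_add_sum_filter_not univ
      (fun x => n * L * (K - 1) ^ (N + 1) < Nat.card (R x) * K ^ (N + 1)), add_mul]
    have h3 : (∑ x ∈ X', Nat.card (R x)) * K ^ (N + 1) ≤
        K ^ (N + 1) * (Fintype.card X * (2 * 4 ^ d * K ^ (N + q)) +
          2 * u * (K ^ (N + q)) ^ (d + 1) * D) := by
      rw [mul_comm]
      refine Nat.mul_le_mul_left _ (h1.trans (Nat.le_add_left _ _))
    rw [← hX']
    omega

/-- the exponent -/
noncomputable def ex (K d : ℕ) : ℝ := 1 / ((d + 1) * K * Real.logb 2 K + 1)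

theorem ex_pos {K d : ℕ} (hK : 2 ≤ K) : 0 < ex K d := by
  unfold ex
  have h1 : (1 : ℝ) < K := by exact_mod_cast hK
  have h2 : 0 < Real.logb 2 K := Real.logb_pos (by norm_num) h1
  positivity

theorem ex_eq {K d : ℕ} (hK : 2 ≤ K) : (d + 1) * K * Real.logb 2 K * ex K d = 1 - ex K d := by
  unfold ex
  have h1 : (1 : ℝ) < K := by exact_mod_cast hK
  have h2 : 0 < Real.logb 2 K := Real.logb_pos (by norm_num) h1
  have h3 : ((d : ℝ) + 1) * K * Real.logb 2 K + 1 ≠ 0 := by positivity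
  field_simp
  ring

theorem ex_lt_one {K d : ℕ} (hK : 2 ≤ K) : ex K d < 1 := by
  have h1 : (1 : ℝ) < K := by exact_mod_cast hK
  have h2 : 0 < Real.logb 2 K := Real.logb_pos (by norm_num) h1
  have h3 := ex_eq (d := d) hK
  have h4 : 0 < ((d : ℝ) + 1) * K * Real.logb 2 K * ex K d := by
    have := ex_pos (d := d) hK
    positivity
  linarith

theorem frac_le {K : ℕ} (hK : 2 ≤ K) : ((K - 1 : ℕ) : ℝ) / K ≤ (2 : ℝ) ^ (-(1 / (K : ℝ))) := by
  have h0 : (0 : ℝ) < K := by positivity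
  have h1 := two_mul_pow K (by omega)
  have h2 : (2 : ℝ) * ((K - 1 : ℕ) : ℝ) ^ K ≤ (K : ℝ) ^ K := by exact_mod_cast h1
  have h3 : (((K - 1 : ℕ) : ℝ) / K) ^ K ≤ 2⁻¹ := by
    rw [div_pow, div_le_iff₀ (by positivity)]
    linarith
  have h4 : ((2 : ℝ) ^ (-(1 / (K : ℝ)))) ^ K = 2⁻¹ := by
    rw [← Real.rpow_natCast, ← Real.rpow_mul (by norm_num)]
    rw [show -(1 / (K : ℝ)) * K = -1 by field_simp, Real.rpow_neg_one]
  by_contra hcon
  push Not at hcon
  have h5 := pow_lt_pow_left₀ hcon (by positivity) (show K ≠ 0 by omega)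
  rw [h4] at h5
  linarith

theorem real_bound {X W : Type} [Fintype X] [AddCommGroup W] [Fintype W] {K q L d r u : ℕ}
    (D : ℕ) (hK : 2 ≤ K) (R : X → Set W) (hR : ∀ x, Deep K q L (R x)) (hr : r ≤ 2 ^ d)
    (hfree : ∀ (S : Finset X) (Y : Finset W), S.card = u → Y.card = r →
      (∀ x ∈ S, ∀ y ∈ Y, y ∈ R x) → False)
    (hD : ∀ x, Nat.card (R x) ≤ D) (hXD : Fintype.card X ≤ D) :
    ((∑ x, Nat.card (R x) : ℕ) : ℝ) ≤
      (L * 2 ^ ((q : ℝ) / K) + 2 * 4 ^ d + 2 * u) * D * (Nat.card W : ℝ) ^ (1 - ex K d) := by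
  classical
  have hcard : ∀ x, Nat.card (R x) ≤ Nat.card W := fun x =>
    Nat.card_le_card_of_injective _ Subtype.val_injective
  have hn0 : 0 < Nat.card W := Nat.card_pos
  rcases Nat.eq_zero_or_pos L with hL | hL
  · have h0 : ∀ x, Nat.card (R x) = 0 := by
      intro x
      obtain ⟨T, _, hS⟩ := hR x
      have : R x = ∅ := by
        rw [hS]
        ext y
        simp only [Set.mem_ofPred_eq, Set.mem_empty_iff_false, iff_false, not_exists]
        intro i
        subst hL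
        exact i.elim0
      rw [this]; simp
    rw [Finset.sum_eq_zero fun x _ => h0 x]
    push_cast
    positivity
  set n : ℝ := (Nat.card W : ℝ) with hn
  have hnpos : 0 < n := by rw [hn]; exact_mod_cast hn0
  have hn1 : 1 ≤ n := by rw [hn]; exact_mod_cast hn0
  have hK1 : (1 : ℝ) < K := by exact_mod_cast hK
  have hKpos : (0 : ℝ) < K := by linarith
  have hlK : 0 < Real.logb 2 K := Real.logb_pos (by norm_num) hK1
  have hln : 0 ≤ Real.logb 2 n := Real.logb_nonneg (by norm_num) hn1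
  have he := ex_pos (d := d) hK
  have heq := ex_eq (d := d) hK
  set ε := ex K d with hε
  set y : ℝ := K * ε * Real.logb 2 n with hy
  have hy0 : 0 ≤ y := by positivity
  have hny : n ^ ε = 2 ^ (y / K) := by
    rw [hy]
    rw [show (K : ℝ) * ε * Real.logb 2 n / K = Real.logb 2 n * ε by field_simp]
    rw [Real.rpow_mul (by norm_num), Real.rpow_logb (by norm_num) (by norm_num) hnpos]
  have hsplit : n = n ^ (1 - ε) * n ^ ε := by
    rw [← Real.rpow_add hnpos]; simp
  have hn1e : 0 < n ^ (1 - ε) := Real.rpow_pos_of_pos hnpos _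
  set N' := ⌊y⌋₊ with hN'
  by_cases hq : N' < q
  · have h1 : y ≤ q := by
      have h2 := Nat.lt_floor_add_one y
      have h3 : ((N' + 1 : ℕ) : ℝ) ≤ q := by exact_mod_cast hq
      push_cast at h3
      linarith
    have h2 : n ^ ε ≤ 2 ^ ((q : ℝ) / K) := by
      rw [hny]
      exact Real.rpow_le_rpow_of_exponent_le (by norm_num) (by gcongr)
    have h3 : ((∑ x, Nat.card (R x) : ℕ) : ℝ) ≤ D * n := by
      have h4 : ∑ x, Nat.card (R x) ≤ Fintype.card X * Nat.card W := by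
        refine (Finset.sum_le_card_nsmul _ _ _ fun x _ => hcard x).trans ?_
        rw [card_univ, smul_eq_mul]
      have h5 : ∑ x, Nat.card (R x) ≤ D * Nat.card W := h4.trans (Nat.mul_le_mul_right _ hXD)
      rw [hn]
      exact_mod_cast h5
    refine h3.trans ?_
    have hL1 : (1 : ℝ) ≤ L := by exact_mod_cast hL
    have h6 : n ≤ L * 2 ^ ((q : ℝ) / K) * n ^ (1 - ε) := by
      calc n = n ^ (1 - ε) * n ^ ε := hsplit
        _ ≤ n ^ (1 - ε) * 2 ^ ((q : ℝ) / K) := by gcongr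
        _ = 1 * (n ^ (1 - ε) * 2 ^ ((q : ℝ) / K)) := by ring
        _ ≤ L * (n ^ (1 - ε) * 2 ^ ((q : ℝ) / K)) := by gcongr
        _ = _ := by ring
    have h7 : (0 : ℝ) ≤ D := by positivity
    calc (D : ℝ) * n ≤ D * (L * 2 ^ ((q : ℝ) / K) * n ^ (1 - ε)) := by gcongr
      _ ≤ D * ((L * 2 ^ ((q : ℝ) / K) + 2 * 4 ^ d + 2 * u) * n ^ (1 - ε)) := by
        gcongr
        have h8 : (0 : ℝ) ≤ 2 * 4 ^ d := by positivity
        have h9 : (0 : ℝ) ≤ 2 * u := by positivity
        linarith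
      _ = _ := by ring
  · push Not at hq
    obtain ⟨N, hN⟩ : ∃ N, N' = N + q := ⟨N' - q, by omega⟩
    have h1 := sum_bound N D R hR hr hfree hD
    have hMy : ((K : ℝ) ^ (N + q)) ^ (d + 1) ≤ n ^ (1 - ε) := by
      have h2 : ((N + q : ℕ) : ℝ) ≤ y := by rw [← hN]; exact Nat.floor_le hy0
      calc ((K : ℝ) ^ (N + q)) ^ (d + 1) = (K : ℝ) ^ (((N + q : ℕ) : ℝ) * ((d : ℝ) + 1)) := by
            rw [Real.rpow_mul hKpos.le, Real.rpow_natCast]
            norm_cast
        _ ≤ (K : ℝ) ^ (y * (d + 1)) :=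
            Real.rpow_le_rpow_of_exponent_le hK1.le (by gcongr)
        _ = ((2 : ℝ) ^ (Real.logb 2 K)) ^ (y * (d + 1)) := by
            rw [Real.rpow_logb (by norm_num) (by norm_num) hKpos]
        _ = (2 : ℝ) ^ (Real.logb 2 n * (1 - ε)) := by
            rw [← Real.rpow_mul (by norm_num)]
            congr 1
            rw [hy, ← heq]
            ring
        _ = n ^ (1 - ε) := by
            rw [Real.rpow_mul (by norm_num), Real.rpow_logb (by norm_num) (by norm_num) hnpos]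
    have hM1 : (1 : ℝ) ≤ (K : ℝ) ^ (N + q) := one_le_pow₀ hK1.le
    have hM : (K : ℝ) ^ (N + q) ≤ n ^ (1 - ε) := by
      refine le_trans ?_ hMy
      exact le_self_pow₀ hM1 (by omega)
    have hfr : (((K - 1 : ℕ) : ℝ) / K) ^ (N + 1) * n ≤ 2 ^ ((q : ℝ) / K) * n ^ (1 - ε) := by
      have h2 : (((K - 1 : ℕ) : ℝ) / K) ^ (N + 1) ≤ ((2 : ℝ) ^ (-(1 / (K : ℝ)))) ^ (N + 1) :=
        pow_le_pow_left₀ (by positivity) (frac_le hK) _
      have h3 : ((2 : ℝ) ^ (-(1 / (K : ℝ)))) ^ (N + 1) = 2 ^ (-(((N + 1 : ℕ) : ℝ) / K)) := by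
        rw [← Real.rpow_natCast, ← Real.rpow_mul (by norm_num)]
        congr 1
        ring
      have h4 : y ≤ ((N + 1 : ℕ) : ℝ) + q := by
        have h5 := Nat.lt_floor_add_one y
        rw [← hN', hN] at h5
        push_cast at h5 ⊢
        linarith
      have h5 : (2 : ℝ) ^ (-(((N + 1 : ℕ) : ℝ) / K)) ≤ 2 ^ ((q : ℝ) / K) * 2 ^ (-(y / K)) := by
        rw [← Real.rpow_add (by norm_num)]
        refine Real.rpow_le_rpow_of_exponent_le (by norm_num) ?_
        rw [← neg_div, ← neg_div, ← add_div]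
        gcongr
        linarith
      have h6 : (2 : ℝ) ^ (-(y / K)) * n = n ^ (1 - ε) := by
        rw [Real.rpow_neg (by norm_num), ← hny]
        nth_rewrite 2 [hsplit]
        have : n ^ ε ≠ 0 := (Real.rpow_pos_of_pos hnpos _).ne'
        field_simp
      calc (((K - 1 : ℕ) : ℝ) / K) ^ (N + 1) * n
          ≤ (2 ^ ((q : ℝ) / K) * 2 ^ (-(y / K))) * n := by
            gcongr
            exact (h2.trans (le_of_eq h3)).trans h5
        _ = 2 ^ ((q : ℝ) / K) * ((2 : ℝ) ^ (-(y / K)) * n) := by ring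
        _ = _ := by rw [h6]
    have h2 : ((∑ x, Nat.card (R x) : ℕ) : ℝ) * (K : ℝ) ^ (N + 1) ≤
        Fintype.card X * (n * L * ((K - 1 : ℕ) : ℝ) ^ (N + 1)) +
        (K : ℝ) ^ (N + 1) * (Fintype.card X * (2 * 4 ^ d * (K : ℝ) ^ (N + q)) +
        2 * u * ((K : ℝ) ^ (N + q)) ^ (d + 1) * D) := by
      rw [hn]
      exact_mod_cast h1
    have hKN : (0 : ℝ) < (K : ℝ) ^ (N + 1) := by positivity
    have h3 : ((∑ x, Nat.card (R x) : ℕ) : ℝ) ≤
        Fintype.card X * (L * ((((K - 1 : ℕ) : ℝ) / K) ^ (N + 1) * n)) +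
        (Fintype.card X * (2 * 4 ^ d * (K : ℝ) ^ (N + q)) +
        2 * u * ((K : ℝ) ^ (N + q)) ^ (d + 1) * D) := by
      rw [← mul_le_mul_iff_left₀ hKN]
      refine h2.trans (le_of_eq ?_)
      rw [div_pow]
      field_simp
    have hXD' : (Fintype.card X : ℝ) ≤ D := by exact_mod_cast hXD
    refine h3.trans ?_
    calc (Fintype.card X : ℝ) * (L * ((((K - 1 : ℕ) : ℝ) / K) ^ (N + 1) * n)) +
        (Fintype.card X * (2 * 4 ^ d * (K : ℝ) ^ (N + q)) +
        2 * u * ((K : ℝ) ^ (N + q)) ^ (d + 1) * D)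
        ≤ D * (L * (2 ^ ((q : ℝ) / K) * n ^ (1 - ε))) +
        (D * (2 * 4 ^ d * n ^ (1 - ε)) + 2 * u * n ^ (1 - ε) * D) := by
          gcongr
      _ = _ := by ring

end Pool.Agent.H217_KR
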